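import Pool.Agent.Lib.helper4.CXPsp
import Pool.Agent.Lib.helper4.CXPspA

set_option autoImplicit false

namespace Pool.Agent.Results.MP_5adc07_lc.Full

open Pool.Agent.Lib.CX

/-- Entry `x` of row `q` of the table is the pair (next state, output letter). -/
def step (T : List (List (ℕ × ℕ))) (q x : ℕ) : ℕ × ℕ := (T.getD q []).getD x (0, 0)

/-- The state `q · w`. -/
def run (T : List (List (ℕ × ℕ))) (w : List ℕ) (q : ℕ) : ℕ := w.foldl (fun q x => (step T q x).1) q

/-- The output word `q ∘ w`. -/
def out (T : List (List (ℕ × ℕ))) : ℕ → List ℕ → List ℕ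
  | _, [] => []
  | q, x :: w => (step T q x).2 :: out T (step T q x).1 w

/-- A Mealy automaton: alphabet size in unary and a complete table with at least one state. -/
def Valid (a : List Unit × List (List (ℕ × ℕ))) : Prop :=
  a.2 ≠ [] ∧ ∀ r ∈ a.2, r.length = a.1.length ∧ ∀ e ∈ r, e.1 < a.2.length ∧ e.2 < a.1.length

/-- `w` is a synchronizing word over the alphabet `0, …, m - 1`. -/
def Syn (m : ℕ) (T : List (List (ℕ × ℕ))) (w : List ℕ) : Prop :=
  (∀ x ∈ w, x < m) ∧ ∃ p, ∀ q < T.length, run T w q = p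

def Reset (m : ℕ) (T : List (List (ℕ × ℕ))) : Prop :=
  (∃ w, Syn m T w) ∧ ∀ q < T.length, ∀ w, Syn m T w → Syn m T (out T q w)

abbrev D := (List ℕ × List ℕ) × List ℕ × List ℕ

def row (a : D) (q : ℕ) : List (ℕ × ℕ) :=
  if q < a.1.1.length then [(a.1.1.getD q 0, 4), (a.1.2.getD q 0, 4),
    (if q ∈ a.2.1 then q else a.1.1.length + 3, 4),
    (if q ∈ a.2.2 then a.1.1.length + 3 else a.1.1.length + 2, 4), (a.1.1.length + 3, 4)]
  else if q = a.1.1.length then [(q + 3, 4), (q + 3, 4), (q + 1, 3), (q + 3, 4), (q + 3, 4)]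
  else if q = a.1.1.length + 1 then [(q, 3), (q, 3), (q + 2, 4), (q + 2, 3), (q + 2, 4)]
  else if q = a.1.1.length + 2 then [(q, 4), (q, 4), (q + 1, 4), (q, 4), (q + 1, 4)]
  else [(q, 4), (q, 4), (q, 4), (q, 4), (q, 4)]

def red (a : D) : List Unit × List (List (ℕ × ℕ)) :=
  ([(), (), (), (), ()], (List.range (a.1.1.length + 4)).map (row a))

variable {a : D}

lemma tab_lt (h : DWF a) {q : ℕ} (hq : q < a.1.1.length) :
    a.1.1.getD q 0 < a.1.1.length ∧ a.1.2.getD q 0 < a.1.1.length := by
  have := h.1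
  constructor <;> apply h.2 <;> simp [*]

lemma valid (h : DWF a) : Valid (red a) := by
  refine ⟨by simp [red], List.forall_mem_map.2 fun q hq => ?_⟩
  have := @tab_lt a h q
  simp only [red, List.mem_range, List.length_map, List.length_range] at hq ⊢
  unfold row
  split_ifs <;> simp only [List.forall_mem_cons, List.length_cons, List.length_nil, List.not_mem_nil,
    false_imp_iff, implies_true, and_true, true_and] <;> omega

lemma spec (h : DWF a) : Into a ↔ ¬ Reset 5 (red a).2 := by
  obtain ⟨n, hn⟩ : ∃ n, n = a.1.1.length := ⟨_, rfl⟩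
  obtain ⟨T, hT⟩ : ∃ T, T = (red a).2 := ⟨_, rfl⟩
  have hl : T.length = n + 4 := by simp [hT, red, hn]
  have e : ∀ q < n + 4, ∀ x, step T q x = (row a q).getD x (0, 0) := fun q hq x => by
    simp [hT, step, red, ← hn, hq]
  have t0 : ∀ q < n, step T q 0 = (a.1.1.getD q 0, 4) ∧ step T q 1 = (a.1.2.getD q 0, 4) ∧
      step T q 2 = (if q ∈ a.2.1 then q else n + 3, 4) ∧
      step T q 3 = (if q ∈ a.2.2 then n + 3 else n + 2, 4) ∧ step T q 4 = (n + 3, 4) :=
    fun q hq => by simp [e q (by omega), row, ← hn, hq]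
  have t1 : ∀ x < 5, step T n x = (if x = 2 then (n + 1, 3) else (n + 3, 4)) ∧
      step T (n + 1) x = (if x < 2 then n + 1 else n + 3, if x = 2 ∨ x = 4 then 4 else 3) ∧
      step T (n + 2) x = (if x = 2 ∨ x = 4 then n + 3 else n + 2, 4) ∧ step T (n + 3) x = (n + 3, 4) :=
    fun x hx => by
      rw [e n (by omega), e (n + 1) (by omega), e (n + 2) (by omega), e (n + 3) (by omega)]
      interval_cases x <;> simp [row, ← hn]
  have rc : ∀ x w q, run T (x :: w) q = run T w (step T q x).1 := fun _ _ _ => rfl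
  have ra : ∀ u w q, run T (u ++ w) q = run T w (run T u q) := fun _ _ _ => List.foldl_append
  have r1 : ∀ x q, run T [x] q = (step T q x).1 := fun _ _ => rfl
  have c0 : ∀ (u : List Bool), ∀ q < n, run T (u.map Bool.toNat) q = drun a.1 u q ∧ drun a.1 u q < n :=
    fun u => by
      induction u with
      | nil => exact fun q hq => ⟨rfl, hq⟩
      | cons b u ih =>
        intro q hq
        have := tab_lt h (hn ▸ hq)
        rw [List.map_cons, rc]
        cases b
        · exact (t0 q hq).1 ▸ ih _ (hn ▸ this.1)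
        · exact (t0 q hq).2.1 ▸ ih _ (hn ▸ this.2)
  have c1 : ∀ w : List ℕ, (∀ x ∈ w, x < 5) → run T w (n + 3) = n + 3 := fun w => by
    induction w with
    | nil => exact fun _ => rfl
    | cons x w ih =>
      intro hw
      obtain ⟨hx, hw⟩ := List.forall_mem_cons.1 hw
      rw [rc, (t1 x hx).2.2.2, ih hw]
  have c2 : ∀ w : List ℕ, (∀ x ∈ w, x < 2 ∨ x = 3) → run T w (n + 2) = n + 2 := fun w => by
    induction w with
    | nil => exact fun _ => rfl
    | cons x w ih =>
      intro hw
      obtain ⟨hx, hw⟩ := List.forall_mem_cons.1 hw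
      rw [rc, (t1 x (by omega)).2.2.1, if_neg (by omega), ih hw]
  have c3 : ∀ u : List Bool, run T (u.map Bool.toNat ++ [3]) (n + 1) = n + 3 ∧
      ∀ x ∈ out T (n + 1) (u.map Bool.toNat ++ [3]), x = 3 := fun u => by
    induction u with
    | nil => simp [r1, out, t1 3]
    | cons b u ih =>
      have : b.toNat < 2 := by cases b <;> simp
      rw [List.map_cons, List.cons_append, rc, out, (t1 _ (by omega)).2.1, if_pos this, if_neg (by omega)]
      exact ⟨ih.1, List.forall_mem_cons.2 ⟨rfl, ih.2⟩⟩
  have lt : ∀ q < n + 4, ∀ x < 5, (step T q x).1 < n + 4 ∧ (step T q x).2 < 5 := fun q hq x hx => by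
    obtain ⟨h1, h2⟩ := (valid h).2 (T[q]) (by rw [← hT]; exact List.getElem_mem _)
    have h3 : x < T[q].length := h1 ▸ hx
    have := h2 _ (List.getElem_mem h3)
    simpa [step, hl, hq, h3, ← hT, show (red a).1.length = 5 from rfl] using this
  have ol : ∀ w : List ℕ, (∀ x ∈ w, x < 5) → ∀ q < n + 4, ∀ x ∈ out T q w, x < 5 := fun w => by
    induction w with
    | nil => simp [out]
    | cons x w ih =>
      intro hw q hq
      obtain ⟨hx, hw⟩ := List.forall_mem_cons.1 hw
      exact List.forall_mem_cons.2 ⟨(lt q hq x hx).2, ih hw _ (lt q hq x hx).1⟩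
  have c4 : ∀ w : List ℕ, (∀ x ∈ w, x < 5) → 4 ∈ w → ∀ q < n + 4, run T w q = n + 3 := fun w => by
    induction w with
    | nil => simp
    | cons x w ih =>
      intro hw h4 q hq
      obtain ⟨hx, hw⟩ := List.forall_mem_cons.1 hw
      rcases List.mem_cons.1 h4 with rfl | h4
      · have : (step T q 4).1 = n + 3 := by
          have := t1 4 hx
          obtain h1 | rfl | rfl | rfl | rfl : q < n ∨ q = n ∨ q = n + 1 ∨ q = n + 2 ∨ q = n + 3 := by omega
          · rw [(t0 q h1).2.2.2.2]
          all_goals simp [this]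
        rw [rc, this, c1 w (List.forall_mem_cons.1 hw).2]
      · exact ih hw h4 _ (lt q hq x hx).1
  have c5 : ∀ w : List ℕ, (∀ x ∈ w, x < 5) → 4 ∉ out T (n + 1) w →
      (∀ x ∈ w, x < 2 ∨ x = 3) ∧ (run T w (n + 1) = n + 3 → ∃ u : List Bool, w = u.map Bool.toNat ++ [3]) :=
    fun w => by
    induction w with
    | nil => simp [run]
    | cons x w ih =>
      intro hw h4
      obtain ⟨hx, hw⟩ := List.forall_mem_cons.1 hw
      rw [out, (t1 x hx).2.1, List.mem_cons, not_or] at h4
      rw [rc, (t1 x hx).2.1]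
      by_cases h1 : x < 2
      · simp only [if_pos h1] at h4 ⊢
        refine ⟨List.forall_mem_cons.2 ⟨.inl h1, (ih hw h4.2).1⟩, fun h2 => ?_⟩
        obtain ⟨u, rfl⟩ := (ih hw h4.2).2 h2
        exact ⟨decide (x = 1) :: u, by interval_cases x <;> rfl⟩
      · obtain rfl : x = 3 := by
          have := h4.1
          split_ifs at this <;> omega
        rcases w with _ | ⟨y, w⟩
        · exact ⟨by simp, fun _ => ⟨[], rfl⟩⟩
        · simp [out, t1 y (hw y (by simp))] at h4
  have hS : ∀ q ∈ a.2.1, q < n := fun q hq => hn ▸ h.2 q (by simp [hq])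
  have b2 := t1 2 (by omega)
  simp only [← hT, Reset, Syn, hl]
  constructor
  · rintro ⟨u, hu⟩ ⟨-, h1⟩
    have hw : ∀ x ∈ u.map Bool.toNat ++ [3], x < 5 :=
      List.forall_mem_append.2 ⟨List.forall_mem_map.2 fun b _ => by cases b <;> simp, by simp⟩
    obtain ⟨h2, p, h3⟩ := h1 n (by omega) (2 :: (u.map Bool.toNat ++ [3]))
      ⟨List.forall_mem_cons.2 ⟨by omega, hw⟩, n + 3, fun q hq => by
        have e1 := c1 _ hw
        have e2 := (c3 u).1
        rw [rc]
        obtain h1 | rfl | rfl | rfl | rfl : q < n ∨ q = n ∨ q = n + 1 ∨ q = n + 2 ∨ q = n + 3 := by omega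
        · by_cases h2 : q ∈ a.2.1
          · rw [(t0 q h1).2.2.1, if_pos h2, ra, (c0 u q h1).1, r1, (t0 _ (c0 u q h1).2).2.2.2.1,
              if_pos (hu q h2)]
          · rwa [(t0 q h1).2.2.1, if_neg h2]
        all_goals simp only [b2, if_true, true_or, Nat.lt_irrefl, if_false, e1, e2]⟩
    have := (h3 (n + 2) (by omega)).trans (h3 (n + 3) (by omega)).symm
    rw [c1 _ h2, c2 _ fun x hx => .inr ?_] at this
    · omega
    · rw [out, b2.1, if_pos rfl, List.mem_cons] at hx
      exact hx.elim id ((c3 u).2 x)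
  · intro h1
    by_contra h2
    refine h1 ⟨⟨[4], by simp, _, c4 _ (by simp) (by simp)⟩, fun q hq w ⟨hw, p, hp⟩ => ⟨ol w hw q hq, _,
      c4 _ (ol w hw q hq) (by_contra fun h4 => ?_)⟩⟩
    obtain rfl := (hp (n + 3) (by omega)).symm.trans (c1 w hw)
    have hd := hp (n + 2) (by omega)
    rcases w with _ | ⟨x, w⟩
    · simp [run] at hd
    obtain ⟨hx, hw'⟩ := List.forall_mem_cons.1 hw
    have := t1 x hx
    obtain h3 | rfl | rfl | rfl | rfl : q < n ∨ q = n ∨ q = n + 1 ∨ q = n + 2 ∨ q = n + 3 := by omega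
    · interval_cases x <;> simp [out, t0 q h3] at h4
    · obtain rfl : x = 2 := by_contra fun h5 => by simp [out, this, h5] at h4
      have h5 := hp q hq
      rw [out, b2.1, if_pos rfl, List.mem_cons, not_or] at h4
      rw [rc, b2.1, if_pos rfl] at h5
      obtain ⟨u, rfl⟩ := (c5 w hw' h4.2).2 h5
      refine h2 ⟨u, fun s hs => by_contra fun h6 => ?_⟩
      have := hp s (by have := hS s hs; omega)
      rw [rc, (t0 s (hS s hs)).2.2.1, if_pos hs, ra, (c0 u s (hS s hs)).1, r1,
        (t0 _ (c0 u s (hS s hs)).2).2.2.2.1, if_neg h6] at this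
      omega
    · rw [c2 _ (c5 _ hw h4).1] at hd
      omega
    all_goals simp [out, this] at h4

abbrev I := List Unit × List (List (ℕ × ℕ))

lemma out_snoc (T : List (List (ℕ × ℕ))) (x : ℕ) (w : List ℕ) :
    ∀ q, out T q (w ++ [x]) = out T q w ++ [(step T (run T w q) x).2] := by
  induction w with
  | nil => exact fun _ => rfl
  | cons y w ih => exact fun q => congrArg (_ :: ·) (ih _)

lemma step_size (T : List (List (ℕ × ℕ))) (q x : ℕ) : size (step T q x).1 ≤ size T + 2 := by
  unfold step
  by_cases h1 : q < T.length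
  · by_cases h2 : x < T[q].length
    · have := (size_mem (List.getElem_mem h2)).trans (size_mem (List.getElem_mem h1))
      rw [show T[q][x] = (T[q][x].1, T[q][x].2) from rfl, size_pair] at this
      simp only [List.getD_eq_getElem?_getD, List.getElem?_eq_getElem, h1, h2, Option.getD_some]
      omega
    · simp [h1, h2, show size (0 : ℕ) = 2 from rfl]
  · simp [h1, show size (0 : ℕ) = 2 from rfl]

lemma reach (F : I → List ℕ × List (List ℕ) → Prop) {d : ∀ a s, Decidable (F a s)}
    (hF : PT fun p : I × List ℕ × List (List ℕ) => @decide (F p.1 p.2) (d ..)) :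
    InPSPACE fun a : I => ∃ w : List ℕ, (∀ x ∈ w, x < a.1.length) ∧ F a ((List.range a.2.length).map (run a.2 w),
      (List.range a.2.length).map fun q => (List.range a.2.length).map (run a.2 (out a.2 q w))) := by
  refine (InPSPACE.of_reach
    (fun a (s t : List ℕ × List (List ℕ)) => ∃ x < a.1.length, t = (s.1.map fun q => (step a.2 q x).1,
      (List.range a.2.length).map fun q => (s.2.getD q []).map fun p => (step a.2 p (step a.2 (s.1.getD q 0) x).2).1))
    F (fun a => (List.range a.2.length, (List.range a.2.length).map fun _ => List.range a.2.length))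
    (fun a => (a.2.length + 1) * (a.2.length * (3 * a.2.length + 2 + size a.2 + 1) + 2 + 1) + 3)
    (by unfold step; fun_prop) hF (by fun_prop) (by fun_prop) fun a t h => ?_).of_iff fun ⟨u, T⟩ => ?_
  · have l : ∀ s : List ℕ, s.length = a.2.length → (∀ q ∈ s, size q ≤ 3 * a.2.length + 2 + size a.2) →
        size s ≤ a.2.length * (3 * a.2.length + 2 + size a.2 + 1) + 2 := fun s h1 h2 =>
      (size_list_le h2).trans (by rw [h1])
    suffices (t.1.length = a.2.length ∧ ∀ q ∈ t.1, size q ≤ 3 * a.2.length + 2 + size a.2) ∧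
        t.2.length = a.2.length ∧ ∀ s ∈ t.2, s.length = a.2.length ∧
          ∀ q ∈ s, size q ≤ 3 * a.2.length + 2 + size a.2 by
      have h1 := l _ this.1.1 this.1.2
      have h2 := size_list_le fun s hs => l s (this.2.2 s hs).1 (this.2.2 s hs).2
      rw [this.2.1] at h2
      rw [show t = (t.1, t.2) from rfl, size_pair, Nat.succ_mul]
      omega
    induction h with
    | refl =>
      have : ∀ q ∈ List.range a.2.length, size q ≤ 3 * a.2.length + 2 + size a.2 :=
        fun q hq => (size_nat_le q).trans (by simp at hq; omega)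
      exact ⟨⟨by simp, this⟩, by simp, List.forall_mem_map.2 fun _ _ => ⟨by simp, this⟩⟩
    | @tail s _ _ h ih =>
      obtain ⟨x, -, rfl⟩ := h
      have : ∀ q x, size (step a.2 q x).1 ≤ 3 * a.2.length + 2 + size a.2 := fun q x =>
        (step_size ..).trans (by omega)
      refine ⟨⟨by simpa using ih.1.1, List.forall_mem_map.2 fun q _ => this ..⟩, by simp,
        List.forall_mem_map.2 fun q hq => ⟨?_, List.forall_mem_map.2 fun q _ => this ..⟩⟩
      have h1 : q < s.2.length := by simpa [ih.2.1] using hq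
      simpa [h1] using (ih.2.2 _ (List.getElem_mem h1)).1
  · have e : ∀ (w : List ℕ) x, ((List.range T.length).map (run T (w ++ [x])), (List.range T.length).map fun q =>
        (List.range T.length).map (run T (out T q (w ++ [x])))) =
        (((List.range T.length).map (run T w)).map fun q => (step T q x).1, (List.range T.length).map fun q =>
          (((List.range T.length).map fun q => (List.range T.length).map (run T (out T q w))).getD q []).map
            fun p => (step T p (step T (((List.range T.length).map (run T w)).getD q 0) x).2).1) := fun w x => by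
      refine Prod.ext (by simp [run]) (List.map_congr_left fun q hq => ?_)
      rw [List.mem_range] at hq
      simp [hq, out_snoc, run]
    have e0 : ((List.range T.length).map (run T []), (List.range T.length).map fun q =>
        (List.range T.length).map (run T (out T q []))) =
        (List.range T.length, (List.range T.length).map fun _ => List.range T.length) := by
      simp [out, show run T [] = id from rfl]
    constructor
    · rintro ⟨w, h1, h2⟩
      refine ⟨_, ?_, h2⟩
      clear h2
      induction w using List.reverseRecOn with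
      | nil => exact e0 ▸ .refl
      | append_singleton w x ih =>
        simp only [List.forall_mem_append, List.forall_mem_singleton] at h1
        exact (ih h1.1).tail ⟨x, h1.2, e w x⟩
    · rintro ⟨t, h1, h2⟩
      suffices ∃ w : List ℕ, (∀ x ∈ w, x < u.length) ∧ t = ((List.range T.length).map (run T w),
          (List.range T.length).map fun q => (List.range T.length).map (run T (out T q w))) by
        obtain ⟨w, h3, rfl⟩ := this
        exact ⟨w, h3, h2⟩
      clear h2
      induction h1 with
      | refl => exact ⟨[], by simp, e0.symm⟩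
      | tail _ h ih =>
        obtain ⟨w, h1, rfl⟩ := ih
        obtain ⟨x, h2, rfl⟩ := h
        exact ⟨w ++ [x], by simpa [or_imp, forall_and] using ⟨h1, h2⟩, (e w x).symm⟩

lemma out_lt {a : I} (h : Valid a) (w : List ℕ) : (∀ x ∈ w, x < a.1.length) → ∀ q < a.2.length,
    ∀ x ∈ out a.2 q w, x < a.1.length := by
  induction w with
  | nil => simp [out]
  | cons x w ih =>
    intro hw q hq
    obtain ⟨hx, hw⟩ := List.forall_mem_cons.1 hw
    obtain ⟨h1, h2⟩ := h.2 _ (List.getElem_mem hq)
    have h3 : x < a.2[q].length := h1 ▸ hx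
    have : (step a.2 q x).1 < a.2.length ∧ (step a.2 q x).2 < a.1.length := by
      simpa [step, hq, h3] using h2 _ (List.getElem_mem h3)
    exact List.forall_mem_cons.2 ⟨this.2, ih hw _ this.1⟩

theorem result : PSPACEComplete fun a : {a // Valid a} => Reset a.1.1.length a.1.2 := by
  classical
  constructor
  · refine ((reach (fun _ s => ∀ x ∈ s.1, ∀ y ∈ s.1, x = y) (by fun_prop)).and (reach (fun _ s =>
      (∀ x ∈ s.1, ∀ y ∈ s.1, x = y) ∧ ∃ l ∈ s.2, ¬ ∀ x ∈ l, ∀ y ∈ l, x = y) (by fun_prop)).not).red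
      ⟨Subtype.val, PT.id.cast fun _ => rfl, fun ⟨a, h⟩ => ?_⟩
    have e : ∀ w, (∀ x ∈ (List.range a.2.length).map (run a.2 w), ∀ y ∈ (List.range a.2.length).map (run a.2 w),
        x = y) ↔ ∃ p, ∀ q < a.2.length, run a.2 w q = p := fun w => by
      simp only [List.forall_mem_map, List.mem_range]
      exact ⟨fun h1 => ⟨_, fun q hq => h1 q hq 0 (List.length_pos_iff.2 h.1)⟩,
        fun ⟨p, h1⟩ x hx y hy => (h1 x hx).trans (h1 y hy).symm⟩
    simp only [Reset, Syn, e]
    refine and_congr_right fun _ => ⟨?_, fun h1 q hq w ⟨h2, h3⟩ => ⟨out_lt h w h2 q hq, by_contra fun h4 =>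
      h1 ⟨w, h2, h3, _, List.mem_map_of_mem (List.mem_range.2 hq), fun h5 => h4 ((e _).1 h5)⟩⟩⟩
    rintro h1 ⟨w, h2, h3, l, hl, h4⟩
    obtain ⟨q, hq, rfl⟩ := List.mem_map.1 hl
    exact h4 ((e _).2 (h1 q (List.mem_range.1 hq) w ⟨h2, h3⟩).2)
  have w : DWF (([], []), [], []) := by simp [DWF]
  have hd : PT fun a : D => if a.1.2.length = a.1.1.length ∧
      ∀ q ∈ a.1.1 ++ a.1.2 ++ a.2.1 ++ a.2.2, q < a.1.1.length then a else (([], []), [], []) := by fun_prop
  refine PSPACEHard.of_into false (fun a => ⟨red (if a.1.2.length = a.1.1.length ∧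
    ∀ q ∈ a.1.1 ++ a.1.2 ++ a.2.1 ++ a.2.2, q < a.1.1.length then a else (([], []), [], [])),
    valid (by split_ifs with h; exacts [h, w])⟩)
    (PT.subtype (PT.comp (by unfold red row; fun_prop) hd) _) fun a h => ?_
  simp only [if_pos (show _ ∧ _ from h), Bool.false_eq_true, iff_false]
  exact spec h

end Pool.Agent.Results.MP_5adc07_lc.Full
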